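import Mathlib

namespace Pool.Agent.H.MP_515085_an

open Function

variable {𝕜 ι : Type} [RCLike 𝕜]

lemma norm_ext {σ : ι → ι} (f : ι → 𝕜) :
    (fun i => ‖extend σ f 0 i‖) = extend σ (fun i => ‖f i‖) 0 := by
  funext i
  rw [apply_extend (fun z : 𝕜 => ‖z‖)]
  congr 1
  funext j
  simp

lemma summ (x : lp (fun _ : ι => 𝕜) 1) : Summable fun i => ‖x i‖ := by
  simpa using x.2.summable (by simp)

lemma norm_eq (x : lp (fun _ : ι => 𝕜) 1) : ‖x‖ = ∑' i, ‖x i‖ := by
  simpa using lp.norm_eq_tsum_rpow (by simp) x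

/-- weighted shift on `ℓ¹` along an injective map -/
noncomputable def shift {σ : ι → ι} (hσ : Injective σ) (r : ι → 𝕜) (C : ℝ) (hr : ∀ i, ‖r i‖ ≤ C) :
    lp (fun _ : ι => 𝕜) 1 →L[𝕜] lp (fun _ : ι => 𝕜) 1 :=
  have hs : ∀ x : lp (fun _ : ι => 𝕜) 1, Summable fun i => ‖r i * x i‖ := fun x =>
    ((summ x).mul_left C).of_nonneg_of_le (fun _ => norm_nonneg _) fun i => by
      rw [norm_mul]; exact mul_le_mul_of_nonneg_right (hr i) (norm_nonneg _)
  LinearMap.mkContinuous
    { toFun := fun x => ⟨extend σ (fun i => r i * x i) 0, memℓp_gen (by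
        simpa [norm_ext] using (summable_extend_zero hσ).2 (hs x))⟩
      map_add' := fun x y => by
        ext i
        by_cases h : ∃ j, σ j = i
        · obtain ⟨j, rfl⟩ := h
          simp [hσ.extend_apply, mul_add]
        · simp [extend_apply' _ _ _ h]
      map_smul' := fun c x => by
        ext i
        by_cases h : ∃ j, σ j = i
        · obtain ⟨j, rfl⟩ := h
          simp [hσ.extend_apply, mul_left_comm]
        · simp [extend_apply' _ _ _ h] } C fun x => by
    rw [norm_eq, norm_eq x, ← tsum_mul_left]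
    show ∑' i, ‖extend σ (fun i => r i * x i) 0 i‖ ≤ _
    rw [norm_ext, tsum_extend_zero hσ]
    exact (hs x).tsum_le_tsum (fun i => by
      rw [norm_mul]; exact mul_le_mul_of_nonneg_right (hr i) (norm_nonneg _)) ((summ x).mul_left C)

lemma shift_apply {σ : ι → ι} (hσ : Injective σ) (r : ι → 𝕜) (C : ℝ) (hr : ∀ i, ‖r i‖ ≤ C)
    (x : lp (fun _ : ι => 𝕜) 1) (i : ι) : shift hσ r C hr x (σ i) = r i * x i := by
  show extend σ (fun i => r i * x i) (0 : ι → 𝕜) (σ i) = _
  rw [hσ.extend_apply]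

lemma shift_single [DecidableEq ι] {σ : ι → ι} (hσ : Injective σ) (r : ι → 𝕜) (C : ℝ)
    (hr : ∀ i, ‖r i‖ ≤ C) (i : ι) (c : 𝕜) :
    shift hσ r C hr (lp.single 1 i c) = lp.single 1 (σ i) (r i * c) := by
  ext k
  by_cases h : ∃ j, σ j = k
  · obtain ⟨j, rfl⟩ := h
    rw [shift_apply]
    rcases eq_or_ne j i with rfl | hj
    · simp
    · simp [lp.single_apply, Pi.single_eq_of_ne hj, Pi.single_eq_of_ne (hσ.ne hj)]
  · have : k ≠ σ i := fun e => h ⟨i, e.symm⟩
    rw [lp.single_apply, Pi.single_eq_of_ne this]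
    show extend σ (fun j => r j * (lp.single 1 i c : lp (fun _ : ι => 𝕜) 1) j) (0 : ι → 𝕜) k = 0
    rw [extend_apply' _ _ _ h]
    rfl

end Pool.Agent.H.MP_515085_an
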